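import Mathlib

/-! # Walks along lists of permutations, sums over sublists -/

set_option autoImplicit false

namespace Pool.Agent.Work.MP_d237fe_co

open Equiv

/-- sum of `F` over all sublists of a list -/
def ssum {α : Type} : List α → (List α → ℝ) → ℝ
  | [], F => F []
  | g :: l, F => ssum l F + ssum l (fun T => F (g :: T))

section ssum

variable {α β : Type}

theorem ssum_mono (l : List α) {F G : List α → ℝ} (h : ∀ T, F T ≤ G T) :
    ssum l F ≤ ssum l G := by
  induction l generalizing F G with
  | nil => exact h []
  | cons g l ih => exact add_le_add (ih h) (ih fun T => h (g :: T))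

theorem ssum_nonneg (l : List α) {F : List α → ℝ} (h : ∀ T, 0 ≤ F T) : 0 ≤ ssum l F := by
  induction l generalizing F with
  | nil => exact h []
  | cons g l ih => exact add_nonneg (ih h) (ih fun T => h (g :: T))

theorem ssum_append (l₁ l₂ : List α) (F : List α → ℝ) :
    ssum (l₁ ++ l₂) F = ssum l₁ (fun T₁ => ssum l₂ (fun T₂ => F (T₁ ++ T₂))) := by
  induction l₁ generalizing F with
  | nil => rfl
  | cons g l ih =>
    show ssum (l ++ l₂) F + ssum (l ++ l₂) (fun T => F (g :: T)) = _
    rw [ih, ih]
    rfl

theorem ssum_map (f : α → β) (l : List α) (F : List β → ℝ) :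
    ssum (l.map f) F = ssum l (fun T => F (T.map f)) := by
  induction l generalizing F with
  | nil => rfl
  | cons g l ih =>
    show ssum (l.map f) F + ssum (l.map f) (fun T => F (f g :: T)) = _
    rw [ih, ih]
    rfl

theorem ssum_add (l : List α) (F G : List α → ℝ) :
    ssum l (fun T => F T + G T) = ssum l F + ssum l G := by
  induction l generalizing F G with
  | nil => rfl
  | cons g l ih =>
    show ssum l (fun T => F T + G T) + ssum l (fun T => F (g :: T) + G (g :: T)) =
      (ssum l F + ssum l (fun T => F (g :: T))) + (ssum l G + ssum l (fun T => G (g :: T)))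
    rw [ih, ih]
    ring

theorem ssum_zero (l : List α) : ssum l (fun _ => (0 : ℝ)) = 0 := by
  induction l with
  | nil => rfl
  | cons g l ih =>
    show ssum l (fun _ => (0 : ℝ)) + ssum l (fun _ => (0 : ℝ)) = 0
    rw [ih, add_zero]

theorem ssum_mul_left (l : List α) (c : ℝ) (F : List α → ℝ) :
    ssum l (fun T => c * F T) = c * ssum l F := by
  induction l generalizing F with
  | nil => rfl
  | cons g l ih =>
    show ssum l (fun T => c * F T) + ssum l (fun T => c * F (g :: T)) =
      c * (ssum l F + ssum l (fun T => F (g :: T)))
    rw [ih, ih]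
    ring

theorem ssum_sum {ι : Type} (s : Finset ι) (l : List α) (F : ι → List α → ℝ) :
    ssum l (fun T => ∑ i ∈ s, F i T) = ∑ i ∈ s, ssum l (F i) := by
  classical
  induction s using Finset.induction with
  | empty => simp [ssum_zero]
  | insert i s hi ih =>
    rw [Finset.sum_insert hi, ← ih, ← ssum_add]
    congr 1
    funext T
    rw [Finset.sum_insert hi]

theorem le_ssum {T l : List α} (h : T.Sublist l) {F : List α → ℝ} (hF : ∀ T, 0 ≤ F T) :
    F T ≤ ssum l F := by
  induction h generalizing F with
  | slnil => exact le_rfl
  | cons a _ ih => exact (ih hF).trans (le_add_of_nonneg_right (ssum_nonneg _ fun T => hF _))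
  | cons_cons a _ ih =>
    refine (ih (F := fun T => F (a :: T)) fun T => hF _).trans ?_
    exact le_add_of_nonneg_left (ssum_nonneg _ fun T => hF _)

end ssum

/-- the position after `k` steps of the walk starting at `x` along the list of permutations -/
def pos {X : Type} : X → List (Perm X) → ℕ → X
  | x, [], _ => x
  | x, _ :: _, 0 => x
  | x, g :: T, k + 1 => pos (g x) T k

section pos

variable {X : Type}

theorem pos_zero (x : X) (T : List (Perm X)) : pos x T 0 = x := by
  cases T <;> rfl

theorem pos_cons_succ (x : X) (g : Perm X) (T : List (Perm X)) (k : ℕ) :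
    pos x (g :: T) (k + 1) = pos (g x) T k := rfl

theorem pos_append_left (x : X) (T₁ T₂ : List (Perm X)) {k : ℕ} (hk : k ≤ T₁.length) :
    pos x (T₁ ++ T₂) k = pos x T₁ k := by
  induction T₁ generalizing x k with
  | nil =>
    have : k = 0 := Nat.le_zero.mp hk
    subst this
    rw [pos_zero, pos_zero]
  | cons g T ih =>
    cases k with
    | zero => rw [pos_zero, pos_zero]
    | succ k => exact ih (g x) (Nat.le_of_succ_le_succ hk)

theorem pos_append_right (x : X) (T₁ T₂ : List (Perm X)) (k : ℕ) :
    pos x (T₁ ++ T₂) (T₁.length + k) = pos (pos x T₁ T₁.length) T₂ k := by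
  induction T₁ generalizing x with
  | nil =>
    simp [pos_zero]
  | cons g T ih =>
    have h1 : (g :: T).length + k = (T.length + k) + 1 := by
      simp only [List.length_cons]
      omega
    rw [h1]
    exact ih (g x)

/-- the step `x ↦ g x` in the bipartite graph flips the side: the walk is self-avoiding if the
positions with indices of the same parity are distinct -/
def SA (x : X) (T : List (Perm X)) : Prop :=
  ∀ i j, i < j → j ≤ T.length → i % 2 = j % 2 → pos x T i ≠ pos x T j

open Classical in
/-- the weighted number of self-avoiding walks -/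
noncomputable def Z [Fintype X] (w : ℕ → ℝ) (l : List (Perm X)) : ℝ :=
  ∑ x : X, ssum l (fun T => if SA x T then w T.length else 0)

/-- the permutation in the first phase -/
def gA (g : Perm X) : Perm (X × Bool) := Equiv.prodCongr g (Equiv.refl Bool)

/-- the permutation in the second phase -/
def gB (σ g : Perm X) : Perm (X × Bool) := Equiv.prodCongr (σ * g * σ⁻¹) Equiv.boolNot

theorem gA_apply (g : Perm X) (x : X) (i : Bool) : gA g (x, i) = (g x, i) := rfl

theorem gB_apply (σ g : Perm X) (x : X) (i : Bool) :
    gB σ g (x, i) = (σ (g (σ⁻¹ x)), !i) := rfl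

theorem pos_gA (x : X) (i : Bool) (T : List (Perm X)) (k : ℕ) :
    pos (x, i) (T.map gA) k = (pos x T k, i) := by
  induction T generalizing x k with
  | nil => rfl
  | cons g T ih =>
    cases k with
    | zero => rfl
    | succ k => exact ih (g x) k

theorem pos_gB (σ : Perm X) (x : X) (i : Bool) (T : List (Perm X)) {k : ℕ}
    (hk : k ≤ T.length) :
    pos (x, i) (T.map (gB σ)) k = (σ (pos (σ⁻¹ x) T k), if k % 2 = 0 then i else !i) := by
  induction T generalizing x i k with
  | nil =>
    have : k = 0 := Nat.le_zero.mp hk
    subst this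
    simp [pos]
  | cons g T ih =>
    cases k with
    | zero => simp [pos]
    | succ k =>
      show pos (gB σ g (x, i)) (T.map (gB σ)) k = _
      rw [gB_apply, ih _ _ (Nat.le_of_succ_le_succ hk), pos_cons_succ]
      have h1 : σ⁻¹ (σ (g (σ⁻¹ x))) = g (σ⁻¹ x) := by simp
      rw [h1]
      congr 1
      rcases Nat.mod_two_eq_zero_or_one k with h | h
      · have h2 : (k + 1) % 2 = 1 := by omega
        simp [h, h2]
      · have h2 : (k + 1) % 2 = 0 := by omega
        simp [h, h2]

end pos

end Pool.Agent.Work.MP_d237fe_co
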