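import Mathlib

/-! # Counting permutations with a prescribed value which avoid a set -/

set_option autoImplicit false

namespace Pool.Agent.Work.MP_d237fe_co

open Equiv

variable {X : Type} [Fintype X] [DecidableEq X]

/-- the permutations with `σ z = u` and `σ b ∉ A` for `b ∈ B` -/
def avoid (z u : X) (A B : Finset X) : Finset (Perm X) :=
  Finset.univ.filter fun σ => σ z = u ∧ ∀ b ∈ B, σ b ∉ A

theorem card_avoid_empty (z u : X) (A : Finset X) :
    (avoid z u A ∅).card * Fintype.card X ≤ Fintype.card (Perm X) := by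
  rw [← Finset.card_univ (α := X), ← Finset.card_product, ← Finset.card_univ (α := Perm X)]
  refine Finset.card_le_card_of_injOn (fun p => swap u p.2 * p.1) (fun _ _ => Finset.mem_univ _) ?_
  rintro ⟨σ, a⟩ hσ ⟨τ, b⟩ hτ h
  simp only [Finset.coe_product, Set.mem_prod, Finset.mem_coe, avoid, Finset.mem_filter] at hσ hτ
  have h1 : (swap u a * σ) z = (swap u b * τ) z := by
    have := congrArg (fun f : Perm X => f z) h
    exact this
  rw [Perm.mul_apply, Perm.mul_apply, hσ.1.2.1, hτ.1.2.1, swap_apply_left, swap_apply_left] at h1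
  subst h1
  have h2 : σ = τ := mul_left_cancel (show swap u a * σ = swap u a * τ from h)
  rw [h2]

theorem card_avoid_insert (z u : X) {A B : Finset X} (hu : u ∉ A) {b₀ : X} (hb : b₀ ∉ B)
    (hbz : b₀ ≠ z) :
    (avoid z u A B).card * A.card ≤
      Fintype.card X * ((avoid z u A B).card - (avoid z u A (insert b₀ B)).card) := by
  have hsub : avoid z u A (insert b₀ B) ⊆ avoid z u A B := by
    intro σ hσ
    simp only [avoid, Finset.mem_filter, Finset.mem_univ, true_and] at hσ ⊢
    exact ⟨hσ.1, fun b hb => hσ.2 b (Finset.mem_insert_of_mem hb)⟩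
  rw [← Finset.card_sdiff_of_subset hsub, ← Finset.card_product, ← Finset.card_univ (α := X),
    ← Finset.card_product]
  refine Finset.card_le_card_of_injOn (fun p => (p.1 b₀, swap (p.1 b₀) p.2 * p.1)) ?_ ?_
  · rintro ⟨σ, a⟩ hσ
    simp only [Finset.coe_product, Set.mem_prod, Finset.mem_coe, avoid, Finset.mem_filter,
      Finset.mem_univ, true_and] at hσ
    obtain ⟨⟨h1, h2⟩, h3⟩ := hσ
    simp only [Finset.coe_product, Set.mem_prod, Finset.mem_coe, Finset.mem_univ, true_and,
      Finset.mem_sdiff, avoid, Finset.mem_filter, Perm.mul_apply]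
    refine ⟨⟨?_, fun b hb' => ?_⟩, fun hcon => ?_⟩
    · rw [h1]
      refine swap_apply_of_ne_of_ne ?_ ?_
      · intro h
        exact hbz (σ.injective (h.symm.trans h1.symm))
      · rintro rfl
        exact hu h3
    · have h4 : σ b ≠ σ b₀ := fun h => hb (σ.injective h ▸ hb')
      have h5 : σ b ≠ a := fun h => h2 b hb' (h ▸ h3)
      rw [swap_apply_of_ne_of_ne h4 h5]
      exact h2 b hb'
    · refine hcon.2 b₀ (Finset.mem_insert_self _ _) ?_
      rw [swap_apply_left]
      exact h3
  · rintro ⟨σ, a⟩ hσ ⟨τ, b⟩ hτ h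
    simp only [Prod.mk.injEq] at h
    obtain ⟨h1, h2⟩ := h
    have h3 : (swap (σ b₀) a * σ) b₀ = (swap (τ b₀) b * τ) b₀ := by rw [h2]
    rw [Perm.mul_apply, Perm.mul_apply, swap_apply_left, swap_apply_left] at h3
    subst h3
    rw [h1] at h2
    have h4 : σ = τ := mul_left_cancel h2
    rw [h4]

theorem card_avoid_le (z u : X) {A : Finset X} (hu : u ∉ A) (B : Finset X) (hz : z ∉ B) :
    ((avoid z u A B).card : ℝ) * Fintype.card X ≤
      Real.exp (-((A.card * B.card : ℕ) : ℝ) / Fintype.card X) * Fintype.card (Perm X) := by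
  have hX : (0 : ℝ) < Fintype.card X := by
    have : 0 < Fintype.card X := Fintype.card_pos_iff.mpr ⟨z⟩
    exact_mod_cast this
  induction B using Finset.induction with
  | empty =>
    have := card_avoid_empty z u A
    simp only [Finset.card_empty, mul_zero, Nat.cast_zero, neg_zero, zero_div, Real.exp_zero,
      one_mul]
    exact_mod_cast this
  | insert b₀ B hb ih =>
    rw [Finset.mem_insert, not_or] at hz
    have h1 := card_avoid_insert z u hu hb (Ne.symm hz.1)
    have hle : (avoid z u A (insert b₀ B)).card ≤ (avoid z u A B).card := by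
      refine Finset.card_le_card fun σ hσ => ?_
      simp only [avoid, Finset.mem_filter, Finset.mem_univ, true_and] at hσ ⊢
      exact ⟨hσ.1, fun b hb => hσ.2 b (Finset.mem_insert_of_mem hb)⟩
    have h2 : ((avoid z u A B).card : ℝ) * A.card ≤
        Fintype.card X * ((avoid z u A B).card - (avoid z u A (insert b₀ B)).card) := by
      have := (Nat.cast_le (α := ℝ)).mpr h1
      rw [Nat.cast_mul, Nat.cast_mul, Nat.cast_sub hle] at this
      exact this
    have h3 : ((avoid z u A (insert b₀ B)).card : ℝ) ≤
        (1 - A.card / Fintype.card X) * (avoid z u A B).card := by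
      rw [sub_mul, one_mul, div_mul_eq_mul_div, le_sub_iff_add_le, ← le_sub_iff_add_le',
        div_le_iff₀ hX]
      linarith
    have h4 : (1 - A.card / Fintype.card X : ℝ) ≤ Real.exp (-(A.card : ℝ) / Fintype.card X) := by
      have := Real.add_one_le_exp (-(A.card : ℝ) / Fintype.card X)
      have h5 : -(A.card : ℝ) / Fintype.card X + 1 = 1 - A.card / Fintype.card X := by ring
      rwa [h5] at this
    have h6 := ih hz.2
    rw [Finset.card_insert_of_notMem hb]
    have h7 : -(((A.card * (B.card + 1) : ℕ) : ℝ)) / Fintype.card X =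
        -(A.card : ℝ) / Fintype.card X + -((A.card * B.card : ℕ) : ℝ) / Fintype.card X := by
      push_cast
      ring
    rw [h7, Real.exp_add]
    calc ((avoid z u A (insert b₀ B)).card : ℝ) * Fintype.card X
        ≤ (Real.exp (-(A.card : ℝ) / Fintype.card X) * (avoid z u A B).card) *
            Fintype.card X := by
          refine mul_le_mul_of_nonneg_right (h3.trans ?_) hX.le
          exact mul_le_mul_of_nonneg_right h4 (Nat.cast_nonneg _)
      _ = Real.exp (-(A.card : ℝ) / Fintype.card X) *
            ((avoid z u A B).card * Fintype.card X) := by ring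
      _ ≤ Real.exp (-(A.card : ℝ) / Fintype.card X) *
            (Real.exp (-((A.card * B.card : ℕ) : ℝ) / Fintype.card X) *
              Fintype.card (Perm X)) := mul_le_mul_of_nonneg_left h6 (Real.exp_pos _).le
      _ = _ := by ring

end Pool.Agent.Work.MP_d237fe_co
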