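import Mathlib
import Pool.Agent.Work.MP_d237fe_co.Core
import Pool.Agent.Work.MP_d237fe_co.Count

/-! # The doubling step: a random permutation between two copies -/

set_option autoImplicit false

namespace Pool.Agent.Work.MP_d237fe_co

open Equiv

section positions

variable {X : Type} [DecidableEq X]

/-- the positions of the first phase which can be met again -/
def posA (x : X) (T : List (Perm X)) : Finset X :=
  (Finset.range (T.length / 2)).image fun a => pos x T (T.length - 2 * (a + 1))

/-- the positions of the second phase which can meet the first phase -/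
def posB (z : X) (T : List (Perm X)) : Finset X :=
  (Finset.range (T.length / 2)).image fun b => pos z T (2 * (b + 1))

theorem card_posA {x : X} {T : List (Perm X)} (h : SA x T) :
    (posA x T).card = T.length / 2 := by
  rw [posA, Finset.card_image_of_injOn, Finset.card_range]
  intro a ha b hb hab
  simp only [Finset.coe_range, Set.mem_Iio] at ha hb
  by_contra hne
  rcases lt_or_gt_of_ne hne with hlt | hlt
  · exact h (T.length - 2 * (b + 1)) (T.length - 2 * (a + 1)) (by omega) (by omega) (by omega)
      hab.symm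
  · exact h (T.length - 2 * (a + 1)) (T.length - 2 * (b + 1)) (by omega) (by omega) (by omega)
      hab

theorem card_posB {x : X} {T : List (Perm X)} (h : SA x T) :
    (posB x T).card = T.length / 2 := by
  rw [posB, Finset.card_image_of_injOn, Finset.card_range]
  intro a ha b hb hab
  simp only [Finset.coe_range, Set.mem_Iio] at ha hb
  by_contra hne
  rcases lt_or_gt_of_ne hne with hlt | hlt
  · exact h (2 * (a + 1)) (2 * (b + 1)) (by omega) (by omega) (by omega) hab
  · exact h (2 * (b + 1)) (2 * (a + 1)) (by omega) (by omega) (by omega) hab.symm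

theorem notMem_posA {x : X} {T : List (Perm X)} (h : SA x T) :
    pos x T T.length ∉ posA x T := by
  intro hmem
  rw [posA, Finset.mem_image] at hmem
  obtain ⟨a, ha, hab⟩ := hmem
  rw [Finset.mem_range] at ha
  exact h (T.length - 2 * (a + 1)) T.length (by omega) le_rfl (by omega) hab

theorem notMem_posB {z : X} {T : List (Perm X)} (h : SA z T) : z ∉ posB z T := by
  intro hmem
  rw [posB, Finset.mem_image] at hmem
  obtain ⟨a, ha, hab⟩ := hmem
  rw [Finset.mem_range] at ha
  refine h 0 (2 * (a + 1)) (by omega) (by omega) (by omega) ?_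
  rw [pos_zero]
  exact hab.symm

omit [DecidableEq X] in
theorem sa_left {x : X} {i : Bool} {σ : Perm X} {T₁ T₂ : List (Perm X)}
    (h : SA (x, i) (T₁.map gA ++ T₂.map (gB σ))) : SA x T₁ := by
  intro a b hab hb hpar heq
  have hlen : (T₁.map (gA (X := X))).length = T₁.length := List.length_map _
  refine h a b hab ?_ hpar ?_
  · rw [List.length_append, hlen]
    omega
  · rw [pos_append_left _ _ _ (by rw [hlen]; omega), pos_append_left _ _ _ (by rw [hlen]; omega),
      pos_gA, pos_gA, heq]

omit [DecidableEq X] in
theorem pos_second (x : X) (i : Bool) (σ : Perm X) (T₁ T₂ : List (Perm X)) {k : ℕ}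
    (hk : k ≤ T₂.length) :
    pos (x, i) (T₁.map gA ++ T₂.map (gB σ)) (T₁.length + k) =
      (σ (pos (σ⁻¹ (pos x T₁ T₁.length)) T₂ k), if k % 2 = 0 then i else !i) := by
  have hlen : (T₁.map (gA (X := X))).length = T₁.length := List.length_map _
  have h1 := pos_append_right (x, i) (T₁.map gA) (T₂.map (gB σ)) k
  rw [hlen] at h1
  rw [h1, pos_gA, pos_gB _ _ _ _ hk]

omit [DecidableEq X] in
theorem sa_right {x : X} {i : Bool} {σ : Perm X} {T₁ T₂ : List (Perm X)}
    (h : SA (x, i) (T₁.map gA ++ T₂.map (gB σ))) :
    SA (σ⁻¹ (pos x T₁ T₁.length)) T₂ := by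
  intro a b hab hb hpar heq
  have hlen : (T₁.map (gA (X := X))).length = T₁.length := List.length_map _
  refine h (T₁.length + a) (T₁.length + b) (by omega) ?_ (by omega) ?_
  · rw [List.length_append, hlen, List.length_map]
    omega
  · rw [pos_second _ _ _ _ _ (by omega), pos_second _ _ _ _ _ hb, heq, hpar]

end positions

variable {X : Type} [Fintype X] [DecidableEq X]

theorem sa_avoid {x : X} {i : Bool} {σ : Perm X} {T₁ T₂ : List (Perm X)}
    (h : SA (x, i) (T₁.map gA ++ T₂.map (gB σ))) :
    σ ∈ avoid (σ⁻¹ (pos x T₁ T₁.length)) (pos x T₁ T₁.length) (posA x T₁)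
      (posB (σ⁻¹ (pos x T₁ T₁.length)) T₂) := by
  simp only [avoid, Finset.mem_filter, Finset.mem_univ, true_and]
  refine ⟨by simp, fun y hy hy' => ?_⟩
  rw [posB, Finset.mem_image] at hy
  rw [posA, Finset.mem_image] at hy'
  obtain ⟨b, hb, hb'⟩ := hy
  obtain ⟨a, ha, ha'⟩ := hy'
  rw [Finset.mem_range] at ha hb
  have hlen : (T₁.map (gA (X := X))).length = T₁.length := List.length_map _
  refine h (T₁.length - 2 * (a + 1)) (T₁.length + 2 * (b + 1)) (by omega) ?_ (by omega) ?_
  · rw [List.length_append, hlen, List.length_map]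
    omega
  · rw [pos_append_left _ _ _ (by rw [hlen]; omega), pos_gA, pos_second _ _ _ _ _ (by omega), ha',
      hb']
    have : 2 * (b + 1) % 2 = 0 := by omega
    rw [if_pos this]

open Classical in
theorem sum_term (w w' : ℕ → ℝ) (hw' : ∀ i, 0 ≤ w' i)
    (h : ∀ i j : ℕ, Real.exp (-((i / 2 * (j / 2) : ℕ) : ℝ) / Fintype.card X) * w' (i + j) ≤
      w i * w j) (x : X) (i : Bool) (T₁ T₂ : List (Perm X)) :
    (∑ σ : Perm X, if SA (x, i) (T₁.map gA ++ T₂.map (gB σ)) then
      w' (T₁.map gA ++ T₂.map (gB σ)).length else 0) * Fintype.card X ≤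
    Fintype.card (Perm X) * (if SA x T₁ then w T₁.length else 0) *
      ∑ z : X, (if SA z T₂ then w T₂.length else 0) := by
  by_cases h1 : SA x T₁
  swap
  · rw [if_neg h1, mul_zero, zero_mul]
    rw [Finset.sum_eq_zero, zero_mul]
    intro σ _
    rw [if_neg]
    exact fun hc => h1 (sa_left hc)
  rw [if_pos h1]
  have h2 : ∀ σ : Perm X, (if SA (x, i) (T₁.map gA ++ T₂.map (gB σ)) then
      w' (T₁.map gA ++ T₂.map (gB σ)).length else 0) ≤
      ∑ z : X, if SA z T₂ ∧ σ ∈ avoid z (pos x T₁ T₁.length) (posA x T₁) (posB z T₂) then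
        w' (T₁.length + T₂.length) else 0 := by
    intro σ
    by_cases h3 : SA (x, i) (T₁.map gA ++ T₂.map (gB σ))
    swap
    · rw [if_neg h3]
      refine Finset.sum_nonneg fun z _ => ?_
      split_ifs
      · exact hw' _
      · exact le_rfl
    rw [if_pos h3]
    have h4 : (T₁.map gA ++ T₂.map (gB σ)).length = T₁.length + T₂.length := by
      rw [List.length_append, List.length_map, List.length_map]
    rw [h4]
    refine le_trans ?_ (Finset.single_le_sum (f := fun z : X =>
      if SA z T₂ ∧ σ ∈ avoid z (pos x T₁ T₁.length) (posA x T₁) (posB z T₂) then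
        w' (T₁.length + T₂.length) else 0) (fun z _ => ?_)
      (Finset.mem_univ (σ⁻¹ (pos x T₁ T₁.length))))
    · show _ ≤ ite _ _ _
      rw [if_pos ⟨sa_right h3, sa_avoid h3⟩]
    · show 0 ≤ ite _ _ _
      split_ifs
      · exact hw' _
      · exact le_rfl
  calc (∑ σ : Perm X, if SA (x, i) (T₁.map gA ++ T₂.map (gB σ)) then
      w' (T₁.map gA ++ T₂.map (gB σ)).length else 0) * Fintype.card X
      ≤ (∑ σ : Perm X, ∑ z : X,
          if SA z T₂ ∧ σ ∈ avoid z (pos x T₁ T₁.length) (posA x T₁) (posB z T₂) then
            w' (T₁.length + T₂.length) else 0) * Fintype.card X :=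
        mul_le_mul_of_nonneg_right (Finset.sum_le_sum fun σ _ => h2 σ) (Nat.cast_nonneg _)
    _ = ∑ z : X, (∑ σ : Perm X,
          if SA z T₂ ∧ σ ∈ avoid z (pos x T₁ T₁.length) (posA x T₁) (posB z T₂) then
            w' (T₁.length + T₂.length) else 0) * Fintype.card X := by
        rw [Finset.sum_comm, Finset.sum_mul]
    _ ≤ ∑ z : X, Fintype.card (Perm X) * w T₁.length *
          (if SA z T₂ then w T₂.length else 0) := by
        refine Finset.sum_le_sum fun z _ => ?_
        by_cases h5 : SA z T₂
        swap
        · rw [if_neg h5, mul_zero, Finset.sum_eq_zero, zero_mul]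
          intro σ _
          rw [if_neg]
          exact fun hc => h5 hc.1
        rw [if_pos h5]
        have h6 : (∑ σ : Perm X,
            if SA z T₂ ∧ σ ∈ avoid z (pos x T₁ T₁.length) (posA x T₁) (posB z T₂) then
            w' (T₁.length + T₂.length) else 0) =
            (avoid z (pos x T₁ T₁.length) (posA x T₁) (posB z T₂)).card *
              w' (T₁.length + T₂.length) := by
          rw [← Finset.sum_filter, Finset.sum_const, nsmul_eq_mul]
          congr 3
          ext σ
          simp [h5]
        rw [h6]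
        have h7 := card_avoid_le z (pos x T₁ T₁.length) (notMem_posA h1) (posB z T₂)
          (notMem_posB h5)
        rw [card_posA h1, card_posB h5] at h7
        calc ((avoid z (pos x T₁ T₁.length) (posA x T₁) (posB z T₂)).card : ℝ) *
              w' (T₁.length + T₂.length) * Fintype.card X
            = ((avoid z (pos x T₁ T₁.length) (posA x T₁) (posB z T₂)).card *
              Fintype.card X) * w' (T₁.length + T₂.length) := by ring
          _ ≤ (Real.exp (-((T₁.length / 2 * (T₂.length / 2) : ℕ) : ℝ) / Fintype.card X) *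
                Fintype.card (Perm X)) * w' (T₁.length + T₂.length) :=
              mul_le_mul_of_nonneg_right h7 (hw' _)
          _ = Fintype.card (Perm X) *
                (Real.exp (-((T₁.length / 2 * (T₂.length / 2) : ℕ) : ℝ) / Fintype.card X) *
                  w' (T₁.length + T₂.length)) := by ring
          _ ≤ Fintype.card (Perm X) * (w T₁.length * w T₂.length) :=
              mul_le_mul_of_nonneg_left (h _ _) (Nat.cast_nonneg _)
          _ = _ := by ring
    _ = _ := by rw [← Finset.mul_sum]

theorem exists_step (w w' : ℕ → ℝ) (hw' : ∀ i, 0 ≤ w' i)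
    (h : ∀ i j : ℕ, Real.exp (-((i / 2 * (j / 2) : ℕ) : ℝ) / Fintype.card X) * w' (i + j) ≤
      w i * w j) (l : List (Perm X)) :
    ∃ σ : Perm X, Z w' (l.map gA ++ l.map (gB σ)) * Fintype.card X ≤ 2 * Z w l ^ 2 := by
  classical
  have hsum : ∑ σ : Perm X, Z w' (l.map gA ++ l.map (gB σ)) * Fintype.card X ≤
      ∑ _σ : Perm X, 2 * Z w l ^ 2 := by
    have e1 : ∀ σ : Perm X, Z w' (l.map gA ++ l.map (gB σ)) =
        ∑ p : X × Bool, ssum l (fun T₁ => ssum l (fun T₂ =>
          if SA p (T₁.map gA ++ T₂.map (gB σ)) then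
            w' (T₁.map gA ++ T₂.map (gB σ)).length else 0)) := by
      intro σ
      unfold Z
      refine Finset.sum_congr rfl fun p _ => ?_
      rw [ssum_append, ssum_map]
      congr 1
      funext T₁
      rw [ssum_map]
    rw [← Finset.sum_mul]
    simp_rw [e1]
    rw [Finset.sum_comm, Finset.sum_mul]
    have e2 : ∀ p : X × Bool, (∑ σ : Perm X, ssum l (fun T₁ => ssum l (fun T₂ =>
          if SA p (T₁.map gA ++ T₂.map (gB σ)) then
            w' (T₁.map gA ++ T₂.map (gB σ)).length else 0))) * Fintype.card X ≤
        ssum l (fun T₁ => if SA p.1 T₁ then w T₁.length else 0) *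
          (Fintype.card (Perm X) * Z w l) := by
      rintro ⟨x, i⟩
      have e3 : (∑ σ : Perm X, ssum l (fun T₁ => ssum l (fun T₂ =>
          if SA (x, i) (T₁.map gA ++ T₂.map (gB σ)) then
            w' (T₁.map gA ++ T₂.map (gB σ)).length else 0))) =
          ssum l (fun T₁ => ssum l (fun T₂ => ∑ σ : Perm X,
          if SA (x, i) (T₁.map gA ++ T₂.map (gB σ)) then
            w' (T₁.map gA ++ T₂.map (gB σ)).length else 0)) := by
        rw [← ssum_sum]
        congr 1
        funext T₁
        rw [← ssum_sum]
      rw [e3, mul_comm, ← ssum_mul_left]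
      have e4 : ssum l (fun T₁ => if SA x T₁ then w T₁.length else 0) *
          (Fintype.card (Perm X) * Z w l) =
          ssum l (fun T₁ => (Fintype.card (Perm X) * Z w l) *
            (if SA x T₁ then w T₁.length else 0)) := by
        rw [ssum_mul_left, mul_comm]
      show _ ≤ ssum l (fun T₁ => if SA x T₁ then w T₁.length else 0) *
          (Fintype.card (Perm X) * Z w l)
      rw [e4]
      refine ssum_mono l fun T₁ => ?_
      rw [← ssum_mul_left]
      have e5 : (Fintype.card (Perm X) * Z w l) * (if SA x T₁ then w T₁.length else 0) =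
          ssum l (fun T₂ => (Fintype.card (Perm X) * (if SA x T₁ then w T₁.length else 0)) *
            ∑ z : X, (if SA z T₂ then w T₂.length else 0)) := by
        rw [ssum_mul_left, ssum_sum]
        unfold Z
        ring
      rw [e5]
      refine ssum_mono l fun T₂ => ?_
      rw [mul_comm]
      exact sum_term w w' hw' h x i T₁ T₂
    refine (Finset.sum_le_sum fun p _ => e2 p).trans ?_
    have e6 : ∑ p : X × Bool, ssum l (fun T₁ => if SA p.1 T₁ then w T₁.length else 0) =
        2 * Z w l := by
      rw [Fintype.sum_prod_type]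
      simp only [Fintype.sum_bool]
      rw [Finset.sum_add_distrib, two_mul]
      rfl
    rw [← Finset.sum_mul, e6]
    simp only [Finset.sum_const, Finset.card_univ, nsmul_eq_mul]
    apply le_of_eq
    ring
  obtain ⟨σ, -, hσ⟩ := Finset.exists_le_of_sum_le Finset.univ_nonempty hsum
  exact ⟨σ, hσ⟩

end Pool.Agent.Work.MP_d237fe_co
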