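import Mathlib
import Pool.Agent.Work.MP_d237fe_co.Step

/-! # The iterated construction: ordered perfect matchings of a complete bipartite graph -/

set_option autoImplicit false

namespace Pool.Agent.Work.MP_d237fe_co

open Equiv

/-- the weight of level `m` -/
noncomputable def wt (lam : ℝ) (m i : ℕ) : ℝ :=
  Real.exp ((m + 1) / 8 * i ^ 2 / 2 ^ m - (lam + 1 / 2 * (1 - 1 / 2 ^ m)) * i)

theorem wt_nonneg (lam : ℝ) (m i : ℕ) : 0 ≤ wt lam m i := (Real.exp_pos _).le

theorem mul_le_floor (i j : ℕ) : i * j ≤ 4 * (i / 2 * (j / 2)) + i + j := by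
  obtain ⟨a, r, hi, hr⟩ : ∃ a r, i = 2 * a + r ∧ r < 2 :=
    ⟨i / 2, i % 2, by omega, by omega⟩
  obtain ⟨b, s, hj, hs⟩ : ∃ b s, j = 2 * b + s ∧ s < 2 :=
    ⟨j / 2, j % 2, by omega, by omega⟩
  have h1 : i / 2 = a := by omega
  have h2 : j / 2 = b := by omega
  rw [h1, h2]
  subst hi hj
  interval_cases r <;> interval_cases s <;> nlinarith

theorem wt_step (lam : ℝ) (m i j : ℕ) :
    Real.exp (-((i / 2 * (j / 2) : ℕ) : ℝ) / 2 ^ m) * wt lam (m + 1) (i + j) ≤
      wt lam m i * wt lam m j := by
  unfold wt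
  rw [← Real.exp_add, ← Real.exp_add, Real.exp_le_exp]
  have hf : (i : ℝ) * j ≤ 4 * ((i / 2 * (j / 2) : ℕ) : ℝ) + i + j := by
    exact_mod_cast mul_le_floor i j
  set f : ℝ := ((i / 2 * (j / 2) : ℕ) : ℝ) with hfdef
  have hq : (0 : ℝ) < 1 / 2 ^ m := by positivity
  have h2 : (1 : ℝ) / 2 ^ (m + 1) = 1 / 2 ^ m / 2 := by
    rw [pow_succ]
    field_simp
  have key : -f + ((m : ℝ) + 2) / 16 * (i + j) ^ 2 - (i + j) / 4 -
      (m + 1) / 8 * (i ^ 2 + j ^ 2) ≤ 0 := by
    have hm : (0 : ℝ) ≤ m := Nat.cast_nonneg _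
    nlinarith [mul_nonneg hm (sq_nonneg ((i : ℝ) - j))]
  have e1 : -f / 2 ^ m + (((m + 1 : ℕ) : ℝ) + 1) / 8 * ((i + j : ℕ) : ℝ) ^ 2 / 2 ^ (m + 1) =
      (1 / 2 ^ m) * (-f + ((m : ℝ) + 2) / 16 * (i + j) ^ 2) := by
    rw [div_eq_mul_one_div _ ((2 : ℝ) ^ (m + 1)), h2]
    push_cast
    ring
  have e2 : ((m : ℝ) + 1) / 8 * (i : ℝ) ^ 2 / 2 ^ m + ((m : ℝ) + 1) / 8 * (j : ℝ) ^ 2 / 2 ^ m =
      (1 / 2 ^ m) * ((m + 1) / 8 * (i ^ 2 + j ^ 2)) := by
    ring
  have e3 : (lam + 1 / 2 * (1 - 1 / 2 ^ (m + 1))) * ((i + j : ℕ) : ℝ) =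
      (lam + 1 / 2 * (1 - 1 / 2 ^ m)) * (i + j) + (1 / 2 ^ m) * ((i + j) / 4) := by
    rw [h2]
    push_cast
    ring
  have h3 := mul_le_mul_of_nonneg_left key hq.le
  rw [mul_zero] at h3
  have e4 : (1 / 2 ^ m) * (-f + ((m : ℝ) + 2) / 16 * (i + j) ^ 2 - (i + j) / 4 -
      (m + 1) / 8 * (i ^ 2 + j ^ 2)) =
      (1 / 2 ^ m) * (-f + ((m : ℝ) + 2) / 16 * (i + j) ^ 2) - (1 / 2 ^ m) * ((i + j) / 4) -
        (1 / 2 ^ m) * ((m + 1) / 8 * (i ^ 2 + j ^ 2)) := by ring
  rw [e4, ← e1, ← e2] at h3
  linarith [h3, e3]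

/-- a family of ordered perfect matchings: involutions, exactly one of which maps `x` to `y` -/
structure IsLatin {X : Type} (l : List (Perm X)) : Prop where
  invol : ∀ g ∈ l, ∀ x, g (g x) = x
  latin : ∀ x y, ∃ t, ∃ h : t < l.length, l[t] x = y
  uniq : ∀ x s t (hs : s < l.length) (ht : t < l.length), l[s] x = l[t] x → s = t

theorem isLatin_succ {X : Type} {l : List (Perm X)} (h : IsLatin l) (σ : Perm X) :
    IsLatin (l.map gA ++ l.map (gB σ)) := by
  constructor
  · intro g hg
    rw [List.mem_append, List.mem_map, List.mem_map] at hg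
    rcases hg with ⟨f, hf, rfl⟩ | ⟨f, hf, rfl⟩
    · rintro ⟨x, i⟩
      rw [gA_apply, gA_apply, h.invol f hf]
    · rintro ⟨x, i⟩
      rw [gB_apply, gB_apply]
      have h1 : σ⁻¹ (σ (f (σ⁻¹ x))) = f (σ⁻¹ x) := by simp
      rw [h1, h.invol f hf]
      simp
  · rintro ⟨x, i⟩ ⟨y, j⟩
    by_cases hij : i = j
    · subst hij
      obtain ⟨t, ht, he⟩ := h.latin x y
      refine ⟨t, by rw [List.length_append, List.length_map]; omega, ?_⟩
      rw [List.getElem_append_left (by rw [List.length_map]; exact ht), List.getElem_map,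
        gA_apply, he]
    · obtain ⟨t, ht, he⟩ := h.latin (σ⁻¹ x) (σ⁻¹ y)
      refine ⟨l.length + t, by
        rw [List.length_append, List.length_map, List.length_map]; omega, ?_⟩
      rw [List.getElem_append_right (by rw [List.length_map]; omega), List.getElem_map,
        gB_apply]
      have h1 : l.length + t - (l.map (gA (X := X))).length = t := by
        rw [List.length_map]; omega
      simp only [h1]
      rw [he]
      have h2 : (!i) = j := by
        cases i <;> cases j <;> simp_all
      rw [h2]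
      simp
  · rintro ⟨x, i⟩ s t hs ht he
    rw [List.length_append, List.length_map, List.length_map] at hs ht
    have hlen : (l.map (gA (X := X))).length = l.length := List.length_map _
    by_cases h1 : s < l.length
    · by_cases h2 : t < l.length
      · rw [List.getElem_append_left (by rw [hlen]; exact h1),
          List.getElem_append_left (by rw [hlen]; exact h2), List.getElem_map, List.getElem_map,
          gA_apply, gA_apply] at he
        exact h.uniq x s t h1 h2 (Prod.ext_iff.mp he).1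
      · exfalso
        rw [List.getElem_append_left (by rw [hlen]; exact h1),
          List.getElem_append_right (by rw [hlen]; omega), List.getElem_map, List.getElem_map,
          gA_apply, gB_apply] at he
        have := (Prod.ext_iff.mp he).2
        simp at this
    · by_cases h2 : t < l.length
      · exfalso
        rw [List.getElem_append_right (by rw [hlen]; omega),
          List.getElem_append_left (by rw [hlen]; exact h2), List.getElem_map, List.getElem_map,
          gA_apply, gB_apply] at he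
        have := (Prod.ext_iff.mp he).2
        simp at this
      · rw [List.getElem_append_right (by rw [hlen]; omega),
          List.getElem_append_right (by rw [hlen]; omega), List.getElem_map, List.getElem_map,
          gB_apply, gB_apply] at he
        have h3 := σ.injective (Prod.ext_iff.mp he).1
        have h4 := h.uniq _ _ _ (by rw [hlen]; omega) (by rw [hlen]; omega) h3
        rw [hlen] at h4
        omega

theorem exists_level (lam : ℝ) (n : ℕ) :
    ∃ (X : Type) (_ : Fintype X) (_ : DecidableEq X) (l : List (Perm X)),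
      Fintype.card X = 2 ^ n ∧ l.length = 2 ^ n ∧ IsLatin l ∧
      Z (wt lam n) l ≤ 2 ^ n * (1 + Real.exp (1 / 8 - lam)) ^ (2 ^ n) := by
  induction n with
  | zero =>
    refine ⟨Unit, inferInstance, inferInstance, [1], by simp, by simp, ?_, ?_⟩
    · constructor
      · intro g _ x
        rfl
      · intro x y
        exact ⟨0, by simp, rfl⟩
      · intro x s t hs ht _
        simp only [List.length_cons, List.length_nil] at hs ht
        omega
    · have h0 : wt lam 0 0 = 1 := by simp [wt]
      have h1 : wt lam 0 1 = Real.exp (1 / 8 - lam) := by simp [wt]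
      have hle : ∀ (p : Prop) [Decidable p] (a : ℝ), 0 ≤ a → (if p then a else 0) ≤ a := by
        intro p _ a ha
        split_ifs
        · exact le_rfl
        · exact ha
      classical
      unfold Z
      rw [Fintype.sum_unique]
      refine (ssum_mono (G := fun T => wt lam 0 T.length) _
        (fun T => hle _ _ (wt_nonneg _ _ _))).trans ?_
      show wt lam 0 0 + wt lam 0 1 ≤ _
      rw [h0, h1]
      simp
  | succ n ih =>
    obtain ⟨X, _, _, l, hX, hl, hlat, hZ⟩ := ih
    have hst := exists_step (X := X) (wt lam n) (wt lam (n + 1)) (fun i => wt_nonneg _ _ _)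
      (fun i j => by
        rw [hX]
        have := wt_step lam n i j
        push_cast at this ⊢
        exact this) l
    obtain ⟨σ, hσ⟩ := hst
    refine ⟨X × Bool, inferInstance, inferInstance, l.map gA ++ l.map (gB σ), ?_, ?_,
      isLatin_succ hlat σ, ?_⟩
    · rw [Fintype.card_prod, hX, Fintype.card_bool, pow_succ]
    · rw [List.length_append, List.length_map, List.length_map, hl, pow_succ, mul_two]
    · rw [hX] at hσ
      have hpos : (0 : ℝ) < 2 ^ n := by positivity
      have hZ0 : 0 ≤ Z (wt lam n) l := by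
        unfold Z
        refine Finset.sum_nonneg fun x _ => ssum_nonneg _ fun T => ?_
        split_ifs
        · exact wt_nonneg _ _ _
        · exact le_rfl
      have h3 : Z (wt lam n) l ^ 2 ≤
          (2 ^ n * (1 + Real.exp (1 / 8 - lam)) ^ (2 ^ n)) ^ 2 :=
        pow_le_pow_left₀ hZ0 hZ 2
      have h4 : 2 * (2 ^ n * (1 + Real.exp (1 / 8 - lam)) ^ (2 ^ n)) ^ 2 =
          (2 ^ (n + 1) * (1 + Real.exp (1 / 8 - lam)) ^ (2 ^ (n + 1))) * 2 ^ n := by
        have h5 : (2 : ℕ) ^ (n + 1) = 2 ^ n * 2 := pow_succ 2 n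
        rw [h5, pow_mul (1 + Real.exp (1 / 8 - lam)) (2 ^ n) 2]
        ring
      push_cast at hσ
      have h5 : Z (wt lam (n + 1)) (l.map gA ++ l.map (gB σ)) * 2 ^ n ≤
          (2 ^ (n + 1) * (1 + Real.exp (1 / 8 - lam)) ^ (2 ^ (n + 1))) * 2 ^ n := by
        rw [← h4]
        linarith
      exact le_of_mul_le_mul_right h5 hpos

end Pool.Agent.Work.MP_d237fe_co
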