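import Mathlib
import Pool.Agent.Work.MP_d237fe_co.Induct

/-! # The length bound for self-avoiding walks -/

set_option autoImplicit false

namespace Pool.Agent.Work.MP_d237fe_co

open Equiv

/-- the bound for the increasing paths between two halves of size `2 ^ n` -/
noncomputable def bd (n : ℕ) : ℝ := 8 * 2 ^ n * ((Real.log (n + 1) + 1) / (n + 1))

theorem nat_bound (n : ℕ) : n * (n + 1) ≤ 2 * 2 ^ n := by
  have h : ∀ n : ℕ, 2 ≤ n → n * (n + 1) ≤ 2 * 2 ^ n := by
    intro n hn
    induction n, hn using Nat.le_induction with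
    | base => norm_num
    | succ n hn ih =>
      rw [pow_succ]
      nlinarith
  rcases Nat.lt_or_ge n 2 with h1 | h1
  · interval_cases n <;> norm_num
  · exact h n h1

theorem length_bound (n : ℕ) (ℓ : ℝ) (hℓ : 0 ≤ ℓ)
    (h : Real.exp ((n + 1) / 8 * ℓ ^ 2 / 2 ^ n -
      (Real.log (n + 1) + 1 / 2 * (1 - 1 / 2 ^ n)) * ℓ) ≤
      2 ^ n * (1 + Real.exp (1 / 8 - Real.log (n + 1))) ^ (2 ^ n)) :
    ℓ ≤ bd n := by
  set L := Real.log (n + 1) with hL
  have hn1 : (0 : ℝ) < n + 1 := by positivity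
  have hL0 : 0 ≤ L := Real.log_nonneg (by
    have : (0 : ℝ) ≤ n := Nat.cast_nonneg _
    linarith)
  have hN : (0 : ℝ) < 2 ^ n := by positivity
  have he : Real.exp (1 / 8 - L) ≤ (8 / 7) / (n + 1) := by
    rw [Real.exp_sub, hL, Real.exp_log hn1]
    refine div_le_div_of_nonneg_right ?_ hn1.le
    have h1 := Real.add_one_le_exp (-(1 / 8) : ℝ)
    rw [Real.exp_neg] at h1
    have h2 : (7 / 8 : ℝ) ≤ (Real.exp (1 / 8))⁻¹ := by linarith
    have h3 := inv_anti₀ (by norm_num : (0 : ℝ) < 7 / 8) h2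
    rw [inv_inv] at h3
    linarith
  have h1 : (1 + Real.exp (1 / 8 - L)) ^ (2 ^ n) ≤
      Real.exp (2 ^ n * ((8 / 7) / (n + 1))) := by
    have h2 : 1 + Real.exp (1 / 8 - L) ≤ Real.exp ((8 / 7) / (n + 1)) := by
      have h3 := Real.add_one_le_exp ((8 / 7) / ((n : ℝ) + 1))
      linarith
    have h4 := pow_le_pow_left₀ (by positivity) h2 (2 ^ n)
    rw [← Real.exp_nat_mul] at h4
    push_cast at h4
    exact h4
  have h2 : (2 : ℝ) ^ n ≤ Real.exp (n * 0.7) := by
    have h3 : (2 : ℝ) ≤ Real.exp 0.7 := by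
      have h4 := Real.log_two_lt_d9
      rw [← Real.exp_log (by norm_num : (0 : ℝ) < 2), Real.exp_le_exp]
      norm_num at h4 ⊢
      linarith
    have h4 := pow_le_pow_left₀ (by norm_num) h3 n
    rwa [← Real.exp_nat_mul] at h4
  have h3 : Real.exp ((n + 1) / 8 * ℓ ^ 2 / 2 ^ n - (L + 1 / 2 * (1 - 1 / 2 ^ n)) * ℓ) ≤
      Real.exp (n * 0.7 + 2 ^ n * ((8 / 7) / (n + 1))) := by
    refine h.trans ?_
    rw [Real.exp_add]
    exact mul_le_mul h2 h1 (by positivity) (Real.exp_pos _).le
  rw [Real.exp_le_exp] at h3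
  by_contra hcon
  rw [not_le, bd, ← hL] at hcon
  have h4 : (L + 1) * ℓ ≤ (n + 1) / 8 * ℓ ^ 2 / 2 ^ n := by
    rw [le_div_iff₀ hN]
    have h5 : 8 * 2 ^ n * (L + 1) ≤ ℓ * (n + 1) := by
      have h6 : 8 * 2 ^ n * ((L + 1) / (n + 1)) * (n + 1) = 8 * 2 ^ n * (L + 1) := by
        field_simp
      rw [← h6]
      exact mul_le_mul_of_nonneg_right hcon.le hn1.le
    nlinarith
  have h5 : 1 / 2 * (1 - 1 / (2 : ℝ) ^ n) * ℓ ≤ 1 / 2 * ℓ := by
    have h6 : 0 ≤ 1 / (2 : ℝ) ^ n * ℓ := by positivity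
    linarith
  have h6 : 1 / 2 * ℓ ≤ n * 0.7 + 2 ^ n * ((8 / 7) / (n + 1)) := by
    have h7 : (n + 1) / 8 * ℓ ^ 2 / 2 ^ n - (L + 1 / 2 * (1 - 1 / 2 ^ n)) * ℓ =
      (n + 1) / 8 * ℓ ^ 2 / 2 ^ n - L * ℓ - 1 / 2 * (1 - 1 / (2 : ℝ) ^ n) * ℓ := by ring
    rw [h7] at h3
    linarith
  have h7 : (n : ℝ) ≤ 2 * 2 ^ n * (1 / (n + 1)) := by
    rw [mul_one_div, le_div_iff₀ hn1]
    exact_mod_cast nat_bound n
  have h8 : 8 * 2 ^ n * (1 / ((n : ℝ) + 1)) ≤ 8 * 2 ^ n * ((L + 1) / (n + 1)) := by
    refine mul_le_mul_of_nonneg_left ?_ (by positivity)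
    exact div_le_div_of_nonneg_right (by linarith) hn1.le
  have h9 : (2 : ℝ) ^ n * ((8 / 7) / (n + 1)) = (8 / 7) * (2 ^ n * (1 / (n + 1))) := by ring
  have h10 : (0 : ℝ) < 2 ^ n * (1 / (n + 1)) := by positivity
  rw [h9] at h6
  nlinarith

/-- the transport of a list of permutations along a bijection -/
theorem pos_conj {X Y : Type} (e : X ≃ Y) (y : Y) (T : List (Perm X)) (k : ℕ) :
    pos y (T.map (fun g => e.symm.trans (g.trans e))) k = e (pos (e.symm y) T k) := by
  induction T generalizing y k with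
  | nil => simp [pos]
  | cons g T ih =>
    cases k with
    | zero => simp [pos]
    | succ k =>
      rw [pos_cons_succ]
      show pos (e (g (e.symm y))) (T.map (fun g => e.symm.trans (g.trans e))) k = _
      rw [ih, e.symm_apply_apply]

theorem exists_bip (n : ℕ) (Y : Type) [Fintype Y] (hY : Fintype.card Y = 2 ^ n) :
    ∃ l : List (Perm Y), l.length = 2 ^ n ∧ IsLatin l ∧
      ∀ (T : List (Perm Y)) (y : Y), T.Sublist l → SA y T → (T.length : ℝ) ≤ bd n := by
  classical
  obtain ⟨X, _, _, l, hX, hl, hlat, hZ⟩ := exists_level (Real.log (n + 1)) n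
  have e : X ≃ Y := Fintype.equivOfCardEq (hX.trans hY.symm)
  refine ⟨l.map (fun g => e.symm.trans (g.trans e)), by rw [List.length_map, hl], ?_, ?_⟩
  · constructor
    · intro g hg y
      rw [List.mem_map] at hg
      obtain ⟨f, hf, rfl⟩ := hg
      simp only [Equiv.trans_apply, e.symm_apply_apply, hlat.invol f hf, e.apply_symm_apply]
    · intro x y
      obtain ⟨t, ht, he⟩ := hlat.latin (e.symm x) (e.symm y)
      refine ⟨t, by rw [List.length_map]; exact ht, ?_⟩
      rw [List.getElem_map]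
      simp only [Equiv.trans_apply, he, e.apply_symm_apply]
    · intro x s t hs ht he
      rw [List.length_map] at hs ht
      rw [List.getElem_map, List.getElem_map] at he
      simp only [Equiv.trans_apply, EmbeddingLike.apply_eq_iff_eq] at he
      exact hlat.uniq _ s t hs ht he
  · intro T y hT hSA
    rw [List.sublist_map_iff] at hT
    obtain ⟨T', hT', rfl⟩ := hT
    rw [List.length_map]
    have hSA' : SA (e.symm y) T' := by
      intro i j hij hj hpar heq
      refine hSA i j hij (by rw [List.length_map]; exact hj) hpar ?_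
      rw [pos_conj, pos_conj, heq]
    refine length_bound n T'.length (Nat.cast_nonneg _) ?_
    refine le_trans ?_ hZ
    have h1 : wt (Real.log (n + 1)) n T'.length ≤ Z (wt (Real.log (n + 1)) n) l := by
      unfold Z
      have h2 : wt (Real.log (n + 1)) n T'.length =
          (fun T => if SA (e.symm y) T then wt (Real.log (n + 1)) n T.length else 0) T' := by
        simp only [if_pos hSA']
      rw [h2]
      have hnn : ∀ (x : X) (T : List (Perm X)),
          0 ≤ (if SA x T then wt (Real.log (n + 1)) n T.length else 0) := by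
        intro x T
        split_ifs
        · exact wt_nonneg _ _ _
        · exact le_rfl
      refine (le_ssum hT' (hnn _)).trans ?_
      exact Finset.single_le_sum (f := fun x : X =>
        ssum l (fun T => if SA x T then wt (Real.log (n + 1)) n T.length else 0))
        (fun x _ => ssum_nonneg _ (hnn x)) (Finset.mem_univ (e.symm y))
    exact h1

end Pool.Agent.Work.MP_d237fe_co
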