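import Mathlib
import Pool.Agent.Work.MP_d237fe_co.Bip

/-! # The proper colouring of the complete graph on `2 ^ n` vertices -/

set_option autoImplicit false

namespace Pool.Agent.Work.MP_d237fe_co

open Equiv

/-- a proper edge colouring of the complete graph on `V` -/
structure IsCol {V : Type} (τ : V → V → ℕ) : Prop where
  symm : ∀ x y, τ x y = τ y x
  proper : ∀ x y z, x ≠ y → x ≠ z → τ x y = τ x z → y = z

/-- a path along which the colours increase -/
def ColPath {V : Type} (τ : V → V → ℕ) (ℓ : ℕ) (v : ℕ → V) : Prop :=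
  Set.InjOn v (Set.Iic ℓ) ∧ ∀ i, i + 1 < ℓ → τ (v i) (v (i + 1)) < τ (v (i + 1)) (v (i + 2))

theorem pos_eq {X : Type} (T : List (Perm X)) (a : ℕ → X)
    (h : ∀ i (hi : i < T.length), T[i] (a i) = a (i + 1)) (k : ℕ) (hk : k ≤ T.length) :
    pos (a 0) T k = a k := by
  induction T generalizing a k with
  | nil =>
    have : k = 0 := Nat.le_zero.mp hk
    subst this
    rfl
  | cons g T ih =>
    cases k with
    | zero => rfl
    | succ k =>
      rw [pos_cons_succ]
      have h0 : g (a 0) = a 1 := h 0 (by simp)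
      rw [h0]
      refine ih (fun i => a (i + 1)) (fun i hi => ?_) k (Nat.le_of_succ_le_succ hk)
      have := h (i + 1) (by rw [List.length_cons]; omega)
      rwa [List.getElem_cons_succ] at this

theorem bip_path {X : Type} {n : ℕ} {l : List (Perm X)}
    (hb : ∀ (T : List (Perm X)) (y : X), T.Sublist l → SA y T → (T.length : ℝ) ≤ bd n)
    (p : ℕ) (a : ℕ → X) (t : ℕ → ℕ) (ht : ∀ i, i < p → t i < l.length)
    (hta : ∀ i (hi : i < p), (l[t i]'(ht i hi)) (a i) = a (i + 1))
    (hinc : ∀ i, i + 1 < p → t i < t (i + 1))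
    (hne : ∀ i j, i < j → j ≤ p → i % 2 = j % 2 → a i ≠ a j) : (p : ℝ) ≤ bd n := by
  have hmono : ∀ i j, i < j → j < p → t i < t j := by
    intro i j hij
    induction j, hij using Nat.le_induction with
    | base => exact fun h => hinc i h
    | succ j hj ih => exact fun h => (ih (by omega)).trans (hinc j h)
  set is : List (Fin l.length) := List.ofFn (fun i : Fin p => (⟨t i, ht i i.2⟩ : Fin l.length))
    with his
  have hpw : is.Pairwise (· < ·) := by
    rw [his, List.pairwise_ofFn]
    intro i j hij
    exact hmono i j hij j.2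
  have hsub : (is.map (fun i => l[i])).Sublist l := List.map_getElem_sublist hpw
  have hlen : (is.map (fun i => l[i])).length = p := by
    rw [List.length_map, his, List.length_ofFn]
  have hget : ∀ i (hi : i < (is.map (fun i => l[i])).length),
      (is.map (fun i => l[i]))[i] (a i) = a (i + 1) := by
    intro i hi
    rw [List.getElem_map]
    simp only [his, List.getElem_ofFn]
    exact hta i (by rw [hlen] at hi; exact hi)
  have hpos := pos_eq (is.map (fun i => l[i])) a hget
  have := hb (is.map (fun i => l[i])) (a 0) hsub (by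
    intro i j hij hj hpar heq
    rw [hpos i (by omega), hpos j hj] at heq
    exact hne i j hij (by rw [hlen] at hj; exact hj) hpar heq)
  rwa [hlen] at this

/-- the rate -/
noncomputable def gg (n : ℕ) : ℝ := (Real.log (n + 1) + 1) / (n + 1)

theorem gg_nonneg (n : ℕ) : 0 ≤ gg n := by
  have : (0 : ℝ) ≤ n := Nat.cast_nonneg _
  have h1 : 0 ≤ Real.log ((n : ℝ) + 1) := Real.log_nonneg (by linarith)
  unfold gg
  positivity

theorem gg_succ (n : ℕ) : 2 * gg n ≤ 3 * gg (n + 1) := by
  have hn : (0 : ℝ) ≤ n := Nat.cast_nonneg _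
  have hn1 : (0 : ℝ) < (n : ℝ) + 1 := by positivity
  have hn2 : (0 : ℝ) < ((n + 1 : ℕ) : ℝ) + 1 := by positivity
  have hlog : Real.log ((n : ℝ) + 1) ≤ Real.log (((n + 1 : ℕ) : ℝ) + 1) := by
    refine Real.log_le_log hn1 ?_
    push_cast
    linarith
  have hlog0 : 0 ≤ Real.log ((n : ℝ) + 1) := Real.log_nonneg (by linarith)
  unfold gg
  rw [← mul_div_assoc, ← mul_div_assoc, div_le_div_iff₀ hn1 hn2]
  rcases Nat.eq_zero_or_pos n with h0 | h0
  · subst h0
    have h2 := Real.log_two_gt_d9
    norm_num at h2 ⊢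
    linarith
  · have h1 : (1 : ℝ) ≤ n := by exact_mod_cast h0
    push_cast at hlog ⊢
    nlinarith

theorem split_path {X V : Type} {n : ℕ} {l : List (Perm X)}
    (hb : ∀ (T : List (Perm X)) (y : X), T.Sublist l → SA y T → (T.length : ℝ) ≤ bd n)
    (hl : l.length = 2 ^ n) (idx : X → X → ℕ) (hidx : ∀ x y, idx x y < l.length)
    (hidx' : ∀ x y, (l[idx x y]'(hidx x y)) x = y) (τ' : X → X → ℕ) (C : ℝ)
    (hC : ∀ ℓ v, ColPath τ' ℓ v → (ℓ : ℝ) ≤ C) (e : V ≃ X × Bool) (ℓ : ℕ) (v : ℕ → V)
    (hv : ColPath (fun x y => if (e x).2 = (e y).2 then 2 ^ n + τ' (e x).1 (e y).1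
      else idx (e x).1 (e y).1) ℓ v) : (ℓ : ℝ) ≤ bd n + C := by
  classical
  obtain ⟨hinj, hinc⟩ := hv
  have hex : ∃ p, p = ℓ ∨ (e (v p)).2 = (e (v (p + 1))).2 := ⟨ℓ, Or.inl rfl⟩
  set p := Nat.find hex with hp
  have hpl : p ≤ ℓ := Nat.find_min' hex (Or.inl rfl)
  have hcross : ∀ i, i < p → (e (v i)).2 ≠ (e (v (i + 1))).2 := by
    intro i hi
    exact fun h => Nat.find_min hex hi (Or.inr h)
  have hnon : ∀ i, p ≤ i → i < ℓ → (e (v i)).2 = (e (v (i + 1))).2 := by
    intro i hi
    induction i, hi using Nat.le_induction with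
    | base =>
      intro h
      rcases Nat.find_spec hex with h1 | h1
      · exact absurd (hp.trans h1) (by omega)
      · exact h1
    | succ i hi ih =>
      intro h
      have h1 := ih (by omega)
      have h2 := hinc i h
      simp only [h1, if_true] at h2
      by_contra h3
      rw [if_neg h3] at h2
      have := hidx (e (v (i + 1))).1 (e (v (i + 2))).1
      omega
  -- the prefix
  have hpar : ∀ k, k ≤ p → (e (v k)).2 = if k % 2 = 0 then (e (v 0)).2 else !(e (v 0)).2 := by
    intro k
    induction k with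
    | zero => intro _; simp
    | succ k ih =>
      intro hk
      have h1 := ih (by omega)
      have h2 := hcross k (by omega)
      have h3 : (e (v (k + 1))).2 = !(e (v k)).2 := by
        cases h4 : (e (v k)).2 <;> cases h5 : (e (v (k + 1))).2 <;> simp_all
      rw [h3, h1]
      rcases Nat.mod_two_eq_zero_or_one k with h6 | h6
      · have h7 : (k + 1) % 2 = 1 := by omega
        simp [h6, h7]
      · have h7 : (k + 1) % 2 = 0 := by omega
        simp [h6, h7]
  have hpre : (p : ℝ) ≤ bd n := by
    refine bip_path hb p (fun i => (e (v i)).1) (fun i => idx (e (v i)).1 (e (v (i + 1))).1)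
      (fun i _ => hidx _ _) (fun i _ => hidx' _ _) ?_ ?_
    · intro i hi
      have h1 := hinc i (by omega)
      simp only [if_neg (hcross i (by omega)), if_neg (hcross (i + 1) hi)] at h1
      exact h1
    · intro i j hij hj hij2 heq
      have h1 : (e (v i)).2 = (e (v j)).2 := by
        rw [hpar i (by omega), hpar j hj, hij2]
      have h2 : v i = v j := e.injective (Prod.ext heq h1)
      have h3 := hinj (Set.mem_Iic.mpr (by omega)) (Set.mem_Iic.mpr (by omega)) h2
      omega
  -- the suffix
  have hsuf : ((ℓ - p : ℕ) : ℝ) ≤ C := by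
    refine hC (ℓ - p) (fun i => (e (v (p + i))).1) ⟨?_, ?_⟩
    · have hconst : ∀ k, p + k ≤ ℓ → (e (v (p + k))).2 = (e (v p)).2 := by
        intro k
        induction k with
        | zero => intro _; rfl
        | succ k ih =>
          intro hk
          rw [← ih (by omega)]
          exact (hnon (p + k) (by omega) (by omega)).symm
      intro i hi j hj hij
      rw [Set.mem_Iic] at hi hj
      have h1 : (e (v (p + i))).2 = (e (v (p + j))).2 := by
        rw [hconst i (by omega), hconst j (by omega)]
      have h2 : v (p + i) = v (p + j) := e.injective (Prod.ext hij h1)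
      have h3 := hinj (Set.mem_Iic.mpr (by omega)) (Set.mem_Iic.mpr (by omega)) h2
      omega
    · intro i hi
      have h1 := hinc (p + i) (by omega)
      simp only [if_pos (hnon (p + i) (by omega) (by omega)),
        if_pos (hnon (p + i + 1) (by omega) (by omega))] at h1
      exact lt_of_add_lt_add_left h1
  have hsum : (ℓ : ℝ) = p + ((ℓ - p : ℕ) : ℝ) := by
    rw [Nat.cast_sub hpl]
    ring
  rw [hsum]
  exact add_le_add hpre hsuf

theorem exists_col (n : ℕ) : ∀ (V : Type) [Fintype V], Fintype.card V = 2 ^ n →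
    ∃ τ : V → V → ℕ, IsCol τ ∧ ∀ ℓ v, ColPath τ ℓ v → (ℓ : ℝ) ≤ 24 * 2 ^ n * gg n := by
  induction n with
  | zero =>
    intro V _ hV
    rw [pow_zero] at hV
    have hs : Subsingleton V := Fintype.card_le_one_iff_subsingleton.mp hV.le
    refine ⟨fun _ _ => 0, ⟨fun _ _ => rfl, fun x y z _ _ _ => Subsingleton.elim _ _⟩, ?_⟩
    intro ℓ v hv
    have h1 : ℓ = 0 := by
      have := hv.1 (Set.mem_Iic.mpr (Nat.zero_le ℓ)) (Set.mem_Iic.mpr le_rfl)
        (Subsingleton.elim _ _)
      exact this.symm
    subst h1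
    have := gg_nonneg 0
    push_cast
    positivity
  | succ n ih =>
    intro V _ hV
    obtain ⟨l, hl, hlat, hb⟩ := exists_bip n (Fin (2 ^ n)) (Fintype.card_fin _)
    obtain ⟨τ', hτ', hC⟩ := ih (Fin (2 ^ n)) (Fintype.card_fin _)
    have e : V ≃ Fin (2 ^ n) × Bool := Fintype.equivOfCardEq (by
      rw [hV, Fintype.card_prod, Fintype.card_fin, Fintype.card_bool, pow_succ])
    choose idx hidx hidx' using hlat.latin
    refine ⟨fun x y => if (e x).2 = (e y).2 then 2 ^ n + τ' (e x).1 (e y).1
      else idx (e x).1 (e y).1, ⟨?_, ?_⟩, ?_⟩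
    · intro x y
      by_cases h : (e x).2 = (e y).2
      · rw [if_pos h, if_pos h.symm, hτ'.symm]
      · rw [if_neg h, if_neg (Ne.symm h)]
        refine hlat.uniq (e x).1 _ _ (hidx _ _) (hidx _ _) ?_
        rw [hidx']
        have h1 := hlat.invol (l[idx (e y).1 (e x).1]'(hidx _ _)) (List.getElem_mem _) (e y).1
        rw [hidx'] at h1
        exact h1.symm
    · intro x y z hxy hxz h
      by_cases h1 : (e x).2 = (e y).2
      · by_cases h2 : (e x).2 = (e z).2
        · rw [if_pos h1, if_pos h2] at h
          refine e.injective (Prod.ext (hτ'.proper (e x).1 _ _ ?_ ?_ (Nat.add_left_cancel h))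
            (h1.symm.trans h2))
          · exact fun hc => hxy (e.injective (Prod.ext hc h1))
          · exact fun hc => hxz (e.injective (Prod.ext hc h2))
        · rw [if_pos h1, if_neg h2] at h
          have := hidx (e x).1 (e z).1
          omega
      · by_cases h2 : (e x).2 = (e z).2
        · rw [if_neg h1, if_pos h2] at h
          have := hidx (e x).1 (e y).1
          omega
        · rw [if_neg h1, if_neg h2] at h
          have h3 : (e y).1 = (e z).1 := by
            rw [← hidx' (e x).1 (e y).1, ← hidx' (e x).1 (e z).1]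
            simp only [h]
          have h4 : (e y).2 = (e z).2 := by
            cases h5 : (e x).2 <;> cases h6 : (e y).2 <;> cases h7 : (e z).2 <;> simp_all
          exact e.injective (Prod.ext h3 h4)
    · intro ℓ v hv
      refine (split_path hb hl idx hidx hidx' τ' _ hC e ℓ v hv).trans ?_
      have h1 := gg_succ n
      have h2 : (0 : ℝ) < 2 ^ n := by positivity
      have h3 : bd n = 8 * 2 ^ n * gg n := rfl
      rw [h3, pow_succ]
      nlinarith

end Pool.Agent.Work.MP_d237fe_co
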