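import Mathlib
import Pool.Agent.Work.MP_d237fe_co.Comp

/-! # From the colouring to a labelling, and the final bounds -/

set_option autoImplicit false

namespace Pool.Agent.Work.MP_d237fe_co

open Equiv

theorem exists_rank {α : Type} [DecidableEq α] (c : α → ℕ) (E : Finset α) :
    ∃ L : α → ℕ, Set.BijOn L E (Set.Icc 1 E.card) ∧
      ∀ e ∈ E, ∀ e' ∈ E, L e < L e' → c e ≤ c e' := by
  induction E using Finset.induction_on_max_value c with
  | empty => exact ⟨fun _ => 0, by simp, by simp⟩
  | insert a s ha hmax ih =>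
    obtain ⟨L, hL, hLc⟩ := ih
    have hupd : ∀ e ∈ s, Function.update L a (s.card + 1) e = L e := by
      intro e he
      rw [Function.update_of_ne]
      rintro rfl
      exact ha he
    refine ⟨Function.update L a (s.card + 1), ?_, ?_⟩
    · have h1 : Set.BijOn (Function.update L a (s.card + 1)) (s : Set α)
          (Set.Icc 1 s.card) := hL.congr (fun e he => (hupd e he).symm)
      have h2 : Function.update L a (s.card + 1) a ∉ Set.Icc 1 s.card := by
        rw [Function.update_self, Set.mem_Icc]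
        omega
      have h3 := h1.insert h2
      rw [Finset.card_insert_of_notMem ha, Finset.coe_insert]
      have h4 : Set.Icc 1 (s.card + 1) =
          insert (Function.update L a (s.card + 1) a) (Set.Icc 1 s.card) := by
        rw [Function.update_self]
        ext x
        simp only [Set.mem_Icc, Set.mem_insert_iff]
        omega
      rw [h4]
      exact h3
    · intro e he e' he' hlt
      rw [Finset.mem_insert] at he he'
      rcases he' with rfl | he'
      · rcases he with rfl | he
        · exact le_rfl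
        · exact hmax e he
      · rcases he with rfl | he
        · exfalso
          rw [Function.update_self, hupd e' he'] at hlt
          have := (hL.mapsTo he').2
          omega
        · rw [hupd e he, hupd e' he'] at hlt
          exact hLc e he e' he' hlt

theorem exists_label {V : Type} (τ : V → V → ℕ) (hτ : IsCol τ) (B : ℝ)
    (hB : ∀ ℓ v, ColPath τ ℓ v → (ℓ : ℝ) ≤ B) (n : ℕ) (f : Fin n ↪ V) :
    ∃ L : Sym2 (Fin n) → ℕ, Set.BijOn L {e | ¬ e.IsDiag} (Set.Icc 1 (n.choose 2)) ∧
      ∀ (ℓ : ℕ) (v : ℕ → Fin n), Set.InjOn v (Set.Iic ℓ) →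
        (∀ i, i + 1 < ℓ → L s(v i, v (i + 1)) < L s(v (i + 1), v (i + 2))) → (ℓ : ℝ) ≤ B := by
  classical
  obtain ⟨L, hL, hLc⟩ := exists_rank
    (Sym2.lift ⟨fun a b => τ (f a) (f b), fun a b => hτ.symm _ _⟩)
    (Finset.univ.filter fun e : Sym2 (Fin n) => ¬ e.IsDiag)
  have hcard : (Finset.univ.filter fun e : Sym2 (Fin n) => ¬ e.IsDiag).card = n.choose 2 := by
    have := Sym2.card_subtype_not_diag (α := Fin n)
    rw [Fintype.card_subtype, Fintype.card_fin] at this
    exact this
  refine ⟨L, ?_, ?_⟩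
  · rw [hcard] at hL
    have h1 : ((Finset.univ.filter fun e : Sym2 (Fin n) => ¬ e.IsDiag : Finset (Sym2 (Fin n))) :
        Set (Sym2 (Fin n))) = {e | ¬ e.IsDiag} := by
      ext e
      simp
    rwa [h1] at hL
  · intro ℓ v hinj hinc
    refine hB ℓ (fun i => f (v i)) ⟨?_, ?_⟩
    · intro i hi j hj hij
      exact hinj hi hj (f.injective hij)
    · intro i hi
      have hne : ∀ i, i < ℓ → v i ≠ v (i + 1) := by
        intro i hi h
        have := hinj (Set.mem_Iic.mpr hi.le) (Set.mem_Iic.mpr (by omega)) h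
        omega
      have h1 := hLc s(v i, v (i + 1)) (by simpa using hne i (by omega))
        s(v (i + 1), v (i + 2)) (by simpa using hne (i + 1) hi) (hinc i hi)
      rw [Sym2.lift_mk, Sym2.lift_mk] at h1
      refine lt_of_le_of_ne h1 fun h2 => ?_
      simp only at h2
      rw [hτ.symm] at h2
      have h3 := hτ.proper _ _ _ (fun h => (hne i (by omega)) (f.injective h).symm)
        (fun h => hne (i + 1) hi (f.injective h)) h2
      have := hinj (Set.mem_Iic.mpr (by omega)) (Set.mem_Iic.mpr (by omega)) (f.injective h3)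
      omega

theorem log_add_one_div_anti {s t : ℝ} (hs : 1 ≤ s) (hst : s ≤ t) :
    (Real.log t + 1) / t ≤ (Real.log s + 1) / s := by
  have hs0 : 0 < s := by linarith
  have ht0 : 0 < t := by linarith
  have he := Real.exp_pos 1
  have h := Real.log_div_self_antitoneOn
    (show Real.exp 1 * s ∈ {x | Real.exp 1 ≤ x} from by
      show Real.exp 1 ≤ Real.exp 1 * s
      nlinarith)
    (show Real.exp 1 * t ∈ {x | Real.exp 1 ≤ x} from by
      show Real.exp 1 ≤ Real.exp 1 * t
      nlinarith)
    (mul_le_mul_of_nonneg_left hst he.le)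
  simp only at h
  rw [Real.log_mul he.ne' hs0.ne', Real.log_mul he.ne' ht0.ne', Real.log_exp] at h
  have h1 : (Real.log t + 1) / t = Real.exp 1 * ((1 + Real.log t) / (Real.exp 1 * t)) := by
    field_simp
    ring
  have h2 : (Real.log s + 1) / s = Real.exp 1 * ((1 + Real.log s) / (Real.exp 1 * s)) := by
    field_simp
    ring
  rw [h1, h2]
  exact mul_le_mul_of_nonneg_left h he.le

theorem exists_labelling (n : ℕ) (hn : 3 ≤ n) :
    ∃ L : Sym2 (Fin n) → ℕ, Set.BijOn L {e | ¬ e.IsDiag} (Set.Icc 1 (n.choose 2)) ∧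
      ∀ (ℓ : ℕ) (v : ℕ → Fin n), Set.InjOn v (Set.Iic ℓ) →
        (∀ i, i + 1 < ℓ → L s(v i, v (i + 1)) < L s(v (i + 1), v (i + 2))) →
        (ℓ : ℝ) ≤ 48 * n * ((Real.log (Real.log n) + 1) / Real.log n) := by
  set k := Nat.clog 2 n with hk
  have h1 : n ≤ 2 ^ k := Nat.le_pow_clog (by norm_num) n
  have h2 : 2 ^ k < 2 * n := by
    have h3 := Nat.pow_pred_clog_lt_self (b := 2) (by norm_num) (x := n) (by omega)
    have h4 : 0 < k := Nat.clog_pos (by norm_num) (by omega)
    obtain ⟨m, hm⟩ : ∃ m, k = m + 1 := ⟨k - 1, by omega⟩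
    rw [← hk, hm] at h3
    rw [hm, pow_succ]
    simp only [Nat.pred_eq_sub_one, Nat.add_sub_cancel] at h3
    omega
  obtain ⟨τ, hτ, hB⟩ := exists_col k (Fin (2 ^ k)) (Fintype.card_fin _)
  have f : Fin n ↪ Fin (2 ^ k) := Fin.castLEEmb h1
  obtain ⟨L, hL, hLB⟩ := exists_label τ hτ _ hB n f
  refine ⟨L, hL, fun ℓ v hinj hinc => (hLB ℓ v hinj hinc).trans ?_⟩
  have hn3 : (3 : ℝ) ≤ n := by exact_mod_cast hn
  have hlogn : 1 ≤ Real.log n := by
    rw [Real.le_log_iff_exp_le (by linarith)]
    have := Real.exp_one_lt_d9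
    linarith
  have hlogk : Real.log n ≤ (k : ℝ) + 1 := by
    have h3 : Real.log n ≤ Real.log ((2 : ℝ) ^ k) := by
      refine Real.log_le_log (by linarith) ?_
      exact_mod_cast h1
    rw [Real.log_pow] at h3
    have h4 := Real.log_two_lt_d9
    have h5 : (k : ℝ) * Real.log 2 ≤ k * 1 :=
      mul_le_mul_of_nonneg_left (by linarith) (Nat.cast_nonneg _)
    linarith
  have h3 : gg k ≤ (Real.log (Real.log n) + 1) / Real.log n := by
    unfold gg
    exact log_add_one_div_anti hlogn hlogk
  have h4 : (24 * 2 ^ k : ℝ) ≤ 48 * n := by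
    have : (2 : ℝ) ^ k ≤ 2 * n := by exact_mod_cast h2.le
    linarith
  exact mul_le_mul h4 h3 (gg_nonneg k) (by positivity)

theorem exists_small (c : ℝ) (hc : 0 < c) :
    ∃ n : ℕ, 3 ≤ n ∧ 48 * (n : ℝ) * ((Real.log (Real.log n) + 1) / Real.log n) < c * n := by
  have h1 : Filter.Tendsto (fun t : ℝ => (Real.log t + 1) / t) Filter.atTop (nhds 0) := by
    have h2 := Real.isLittleO_log_id_atTop.tendsto_div_nhds_zero
    have h3 := tendsto_inv_atTop_zero (𝕜 := ℝ)
    have h4 := h2.add h3
    rw [add_zero] at h4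
    refine h4.congr fun t => ?_
    simp only [id]
    rw [add_div, one_div]
  have h2 : Filter.Tendsto (fun n : ℕ => Real.log (n : ℝ)) Filter.atTop Filter.atTop :=
    Real.tendsto_log_atTop.comp tendsto_natCast_atTop_atTop
  have h3 := h1.comp h2
  have h4 := (h3.eventually (gt_mem_nhds (show (0 : ℝ) < c / 48 by positivity))).and
    (Filter.eventually_ge_atTop 3)
  obtain ⟨n, hn, hn3⟩ := h4.exists
  refine ⟨n, hn3, ?_⟩
  have hn0 : (0 : ℝ) < n := by
    have : 0 < n := by omega
    exact_mod_cast this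
  simp only [Function.comp_apply] at hn
  have h5 : 48 * ((Real.log (Real.log n) + 1) / Real.log n) < c := by linarith
  nlinarith

end Pool.Agent.Work.MP_d237fe_co
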